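import Mathlib

set_option autoImplicit false

/-!
# The mean waiting time bound of the GI/GI/k queue fails

Five servers, constant interarrival times 4, service times 17 or 21 with probability 1/2 each.
The relative traffic intensity is 19/20 and the proposed bound is 2/5.  If the customer five
places before has service time 21, then all five servers still have workload at least 1, so every
customer from the sixth on waits at least 1 with probability at least 1/2, and so does the
stationary waiting time.
-/

open MeasureTheory ProbabilityTheory Filter Topology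

namespace Pool.Agent.Results.MP_1c00b2_pr.StationaryWait

/-- The increasing rearrangement of a vector. -/
noncomputable def sortVec {k : ℕ} (v : Fin k → ℝ) : Fin k → ℝ := v ∘ Tuple.sort v

/-- One Kiefer–Wolfowitz step: the service time `s` is added to the first (least) coordinate,
then the interarrival time `t` is subtracted everywhere, negative values are replaced by `0`, and
the vector is sorted. -/
noncomputable def kwStep {k : ℕ} (w : Fin k → ℝ) (s t : ℝ) : Fin k → ℝ :=
  sortVec fun i => max 0 ((if i.val = 0 then w i + s else w i) - t)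

/-- The ordered workload vector seen by the `n`-th arrival (the first one is `n = 0` and finds
the system empty). -/
noncomputable def work (k : ℕ) (T S : ℕ → ℝ) : ℕ → Fin k → ℝ
  | 0 => 0
  | n + 1 => kwStep (work k T S n) (S n) (T n)

/-- A stable GI/GI/k queue with finite second moments: interarrival times `T`, service
times `S`. -/
structure IsQueue {Ω : Type} [MeasurableSpace Ω] (μ : Measure Ω) (k : ℕ) (T S : ℕ → Ω → ℝ) :
    Prop where
  measT : ∀ n, Measurable (T n)
  measS : ∀ n, Measurable (S n)
  nonnegT : ∀ n ω, 0 ≤ T n ω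
  nonnegS : ∀ n ω, 0 ≤ S n ω
  indep : iIndepFun (fun n ω => (T n ω, S n ω)) μ
  indepTS : ∀ n, IndepFun (T n) (S n) μ
  identT : ∀ n, IdentDistrib (T n) (T 0) μ μ
  identS : ∀ n, IdentDistrib (S n) (S 0) μ μ
  memT : MemLp (T 0) 2 μ
  memS : MemLp (S 0) 2 μ
  posT : 0 < ∫ ω, T 0 ω ∂μ
  stable : (∫ ω, S 0 ω ∂μ) / ((k : ℝ) * ∫ ω, T 0 ω ∂μ) < 1

/-- The right-hand side `(ρ(2-ρ) var T + var S / k²) / (2(1-ρ) a)` of the proposed bound. -/
noncomputable def rhs {Ω : Type} [MeasurableSpace Ω] (μ : Measure Ω) (k : ℕ)
    (T S : ℕ → Ω → ℝ) : ℝ :=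
  let a := ∫ ω, T 0 ω ∂μ
  let b := ∫ ω, S 0 ω ∂μ
  let ρ := b / ((k : ℝ) * a)
  (ρ * (2 - ρ) * variance (T 0) μ + variance (S 0) μ / (k : ℝ) ^ 2) / (2 * (1 - ρ) * a)

lemma sortVec_mono {k : ℕ} (v : Fin k → ℝ) : Monotone (sortVec v) := Tuple.monotone_sort v

lemma card_sortVec {k : ℕ} (v : Fin k → ℝ) (x : ℝ) :
    (Finset.univ.filter fun i => x ≤ sortVec v i).card
      = (Finset.univ.filter fun i => x ≤ v i).card := by
  have : (Finset.univ.filter fun i => x ≤ v i)
      = (Finset.univ.filter fun i => x ≤ sortVec v i).map (Tuple.sort v).toEmbedding := by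
    ext i
    simp only [Finset.mem_filter, Finset.mem_univ, true_and, Finset.mem_map,
      Equiv.coe_toEmbedding]
    constructor
    · intro h
      exact ⟨(Tuple.sort v).symm i, by simpa [sortVec] using h, by simp⟩
    · rintro ⟨j, hj, rfl⟩
      exact hj
  rw [this, Finset.card_map]

/-- If at least `j` servers have workload at least `x + 4` and a customer with service time at
least `17` arrives, then four time units later at least `j + 1` servers have workload at
least `x`, where `x ≤ 13`. -/
lemma step_count (w : Fin 5 → ℝ) (hw : Monotone w) (s x : ℝ) (j : ℕ) (hj : j < 5)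
    (hs : x + 4 ≤ w 0 + s)
    (h : j ≤ (Finset.univ.filter fun i => x + 4 ≤ w i).card) :
    j + 1 ≤ (Finset.univ.filter fun i => x ≤ kwStep w s 4 i).card := by
  rw [kwStep, card_sortVec]
  by_cases h0 : x + 4 ≤ w 0
  · have : (Finset.univ.filter fun i : Fin 5 =>
        x ≤ max 0 ((if i.val = 0 then w i + s else w i) - 4)) = Finset.univ := by
      refine Finset.filter_true_of_mem fun i _ => le_max_of_le_right ?_
      split_ifs with hi
      · have : i = 0 := Fin.ext hi
        subst this; linarith
      · have := hw (Fin.zero_le i); linarith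
    rw [this, Finset.card_univ, Fintype.card_fin]
    omega
  · have hsub : insert (0 : Fin 5) (Finset.univ.filter fun i => x + 4 ≤ w i)
        ⊆ (Finset.univ.filter fun i : Fin 5 =>
        x ≤ max 0 ((if i.val = 0 then w i + s else w i) - 4)) := by
      intro i hi
      rw [Finset.mem_insert] at hi
      simp only [Finset.mem_filter, Finset.mem_univ, true_and] at hi ⊢
      refine le_max_of_le_right ?_
      rcases hi with rfl | hi
      · simp; linarith
      · have : i.val ≠ 0 := by
          intro h'
          have : i = 0 := Fin.ext h'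
          subst this; exact h0 hi
        rw [if_neg this]; linarith
    have hc := Finset.card_le_card hsub
    rw [Finset.card_insert_of_notMem (by simpa using h0)] at hc
    omega

lemma work_mono (k : ℕ) (T S : ℕ → ℝ) (n : ℕ) : Monotone (work k T S n) := by
  cases n with
  | zero => exact fun _ _ _ => le_rfl
  | succ n => rw [work, kwStep]; exact sortVec_mono _

lemma work_nonneg (k : ℕ) (T S : ℕ → ℝ) (n : ℕ) (i : Fin k) : 0 ≤ work k T S n i := by
  cases n with
  | zero => exact le_rfl
  | succ n => rw [work, kwStep]; exact le_max_left _ _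

/-- If customer `n` has service time `21` then customer `n + 5` waits at least `1`. -/
lemma wait_ge (S : ℕ → ℝ) (hS : ∀ n, 17 ≤ S n) (n : ℕ) (h : S n = 21) :
    1 ≤ work 5 (fun _ => 4) S (n + 5) 0 := by
  have key : ∀ j : ℕ, j < 5 → j + 1 ≤ (Finset.univ.filter fun i =>
      (17 : ℝ) - 4 * j ≤ work 5 (fun _ => 4) S (n + (j + 1)) i).card := by
    intro j
    induction j with
    | zero =>
      intro _
      have h0 := work_nonneg 5 (fun _ => 4) S n 0
      exact step_count (work 5 (fun _ => 4) S n) (work_mono _ _ _ _) (S n) _ 0 (by norm_num)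
        (by rw [h]; norm_num; linarith) (Nat.zero_le _)
    | succ j ih =>
      intro hj
      have h0 := work_nonneg 5 (fun _ => 4) S (n + (j + 1)) 0
      have hs := hS (n + (j + 1))
      refine step_count (work 5 (fun _ => 4) S (n + (j + 1))) (work_mono _ _ _ _)
        (S (n + (j + 1))) _ (j + 1) hj ?_ ?_
      · have : (0 : ℝ) ≤ (j : ℝ) := Nat.cast_nonneg j
        push_cast
        linarith
      · have e : (17 : ℝ) - 4 * ((j + 1 : ℕ) : ℝ) + 4 = 17 - 4 * (j : ℝ) := by
          push_cast; ring
        rw [e]
        exact ih (by omega)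
  have h5 := key 4 (by norm_num)
  have huniv : (Finset.univ.filter fun i =>
      (17 : ℝ) - 4 * (4 : ℕ) ≤ work 5 (fun _ => 4) S (n + (4 + 1)) i) = Finset.univ := by
    apply Finset.eq_univ_of_card
    rw [Fintype.card_fin]
    refine le_antisymm ?_ h5
    calc _ ≤ (Finset.univ : Finset (Fin 5)).card := Finset.card_le_card (Finset.filter_subset _ _)
      _ = 5 := by simp
  have h0 : (0 : Fin 5) ∈ (Finset.univ.filter fun i =>
      (17 : ℝ) - 4 * (4 : ℕ) ≤ work 5 (fun _ => 4) S (n + (4 + 1)) i) := by
    rw [huniv]; exact Finset.mem_univ _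
  have := (Finset.mem_filter.mp h0).2
  norm_num at this
  exact this

/-- A fair coin on `Bool`. -/
noncomputable def coin : Measure Bool :=
  (2⁻¹ : ENNReal) • Measure.dirac true + (2⁻¹ : ENNReal) • Measure.dirac false

instance : IsProbabilityMeasure coin := by
  constructor
  simp only [coin, Measure.coe_add, Measure.coe_smul, Pi.add_apply, Pi.smul_apply, measure_univ,
    smul_eq_mul, mul_one]
  exact ENNReal.inv_two_add_inv_two

/-- The two service times 17 and 21. -/
def sv (b : Bool) : ℝ := if b then 21 else 17

lemma sv_cases (b : Bool) : sv b = 17 ∨ sv b = 21 := by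
  cases b <;> simp [sv]

/-- Markov's inequality at level `1`. -/
lemma markov {Ω : Type} [MeasurableSpace Ω] (μ : Measure Ω) (f : Ω → ℝ) (s : Set Ω)
    (hs : NullMeasurableSet s μ) (h : ∀ ω ∈ s, 1 ≤ f ω) :
    μ s ≤ ∫⁻ ω, ENNReal.ofReal (f ω) ∂μ := by
  rw [← lintegral_indicator_one₀ hs]
  refine lintegral_mono fun ω => ?_
  by_cases hω : ω ∈ s
  · rw [Set.indicator_of_mem hω]
    exact ENNReal.one_le_ofReal.mpr (h ω hω)
  · rw [Set.indicator_of_notMem hω]
    exact zero_le

/-- There is a stable GI/GI/5 queue with constant interarrival times 4 and service times 17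
and 21, for which the proposed bound equals 2/5, every customer from the sixth on waits at least 1
with probability at least 1/2, and every limit in distribution of the waiting times has mean at
least 1/2. -/
theorem result :
    ∃ (Ω : Type) (_ : MeasurableSpace Ω) (μ : Measure Ω) (_ : IsProbabilityMeasure μ)
      (T S : ℕ → Ω → ℝ), IsQueue μ 5 T S ∧
      (∀ n ω, T n ω = 4) ∧ (∀ n ω, S n ω = 17 ∨ S n ω = 21) ∧
      rhs μ 5 T S = 2 / 5 ∧
      (∀ n, 1 / 2 ≤ μ.real {ω | 1 ≤ work 5 (fun m => T m ω) (fun m => S m ω) (n + 5) 0}) ∧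
      (∀ n, ENNReal.ofReal (1 / 2) ≤ ∫⁻ ω, ENNReal.ofReal
        (work 5 (fun m => T m ω) (fun m => S m ω) (n + 5) 0) ∂μ) ∧
      ∀ (Ω' : Type) [MeasurableSpace Ω'] (μ' : Measure Ω') [IsProbabilityMeasure μ']
        (W : Ω' → ℝ),
        TendstoInDistribution
          (fun n ω => work 5 (fun m => T m ω) (fun m => S m ω) n 0) atTop W (fun _ => μ) μ' →
        ENNReal.ofReal (rhs μ 5 T S) < ENNReal.ofReal (1 / 2) ∧
          ENNReal.ofReal (1 / 2) ≤ ∫⁻ ω, ENNReal.ofReal (W ω) ∂μ' := by
  let μ : Measure (ℕ → Bool) := Measure.infinitePi (fun _ => coin)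
  let T : ℕ → (ℕ → Bool) → ℝ := fun _ _ => 4
  let S : ℕ → (ℕ → Bool) → ℝ := fun n ω => sv (ω n)
  have hsv : Measurable sv := measurable_of_finite _
  have hS : ∀ n, Measurable (S n) := fun n => hsv.comp (measurable_pi_apply n)
  have hmap : ∀ n, μ.map (fun ω => ω n) = coin := fun n => Measure.infinitePi_map_eval _ n
  have hint : ∀ f : Bool → ℝ, ∫ ω, f (ω 0) ∂μ = (f true + f false) / 2 := by
    intro f
    have hf : Measurable f := measurable_of_finite _
    have : ∫ ω, f (ω 0) ∂μ = ∫ b, f b ∂coin := by
      rw [← hmap 0, integral_map (measurable_pi_apply 0).aemeasurable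
        hf.aestronglyMeasurable]
    have hi : ∀ b : Bool, Integrable f ((2⁻¹ : ENNReal) • Measure.dirac b) := fun b =>
      (integrable_dirac (by simp)).smul_measure (by simp)
    rw [this, coin, integral_add_measure (hi true) (hi false), integral_smul_measure,
      integral_smul_measure, integral_dirac, integral_dirac]
    simp
    ring
  have hT0 : ∫ ω, T 0 ω ∂μ = 4 := by simp [T]
  have hS0 : ∫ ω, S 0 ω ∂μ = 19 := by
    have := hint sv
    simp only [S]
    rw [this]; norm_num [sv]
  have hSm : MemLp (S 0) 2 μ := by
    refine MemLp.of_bound (hS 0).aestronglyMeasurable 21 (Filter.Eventually.of_forall fun ω => ?_)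
    rcases sv_cases (ω 0) with h | h <;> simp [S, h] <;> norm_num
  have hvS : variance (S 0) μ = 4 := by
    rw [variance_eq_integral (hS 0).aemeasurable, hS0]
    have := hint (fun b => (sv b - 19) ^ 2)
    simp only [S]
    rw [this]; norm_num [sv]
  have hvT : variance (T 0) μ = 0 := by
    rw [variance_eq_integral (measurable_const).aemeasurable, hT0]
    simp [T]
  have hrhs : rhs μ 5 T S = 2 / 5 := by
    simp only [rhs]
    rw [hT0, hS0, hvS, hvT]
    norm_num
  have hS17 : ∀ n ω, 17 ≤ S n ω := by
    intro n ω
    rcases sv_cases (ω n) with h | h <;> simp only [S, h] <;> norm_num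
  have hhalf : ∀ n, μ {ω | ω n = true} = 2⁻¹ := by
    intro n
    have : μ {ω | ω n = true} = μ.map (fun ω => ω n) {true} := by
      rw [Measure.map_apply (measurable_pi_apply n) (measurableSet_singleton _)]
      rfl
    rw [this, hmap n]
    simp [coin]
  have hset : ∀ n, ∀ ω ∈ {ω : ℕ → Bool | ω n = true},
      1 ≤ work 5 (fun m => T m ω) (fun m => S m ω) (n + 5) 0 := by
    intro n ω hω
    exact wait_ge (fun m => S m ω) (fun m => hS17 m ω) n (by
      have : ω n = true := hω
      simp [S, sv, this])
  have hprob : ∀ n, (2⁻¹ : ENNReal) ≤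
      μ {ω | 1 ≤ work 5 (fun m => T m ω) (fun m => S m ω) (n + 5) 0} := by
    intro n
    rw [← hhalf n]
    exact measure_mono fun ω hω => hset n ω hω
  have half : ENNReal.ofReal (1 / 2) = 2⁻¹ := by
    rw [one_div, ENNReal.ofReal_inv_of_pos (by norm_num)]; simp
  refine ⟨ℕ → Bool, inferInstance, μ, inferInstance, T, S, ?_, fun _ _ => rfl,
    fun n ω => sv_cases (ω n), hrhs, ?_, ?_, ?_⟩
  · exact
    { measT := fun n => measurable_const
      measS := hS
      nonnegT := fun n ω => by simp [T]
      nonnegS := fun n ω => le_trans (by norm_num) (hS17 n ω)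
      indep := iIndepFun_infinitePi (P := fun _ => coin) (X := fun n (b : Bool) => ((4 : ℝ), sv b))
        (fun n => measurable_const.prodMk hsv)
      indepTS := fun n => indepFun_const_left _ _
      identT := fun n => IdentDistrib.refl measurable_const.aemeasurable
      identS := fun n => ⟨(hS n).aemeasurable, (hS 0).aemeasurable, by
        have e : ∀ m, μ.map (S m) = coin.map sv := by
          intro m
          rw [← hmap m, Measure.map_map hsv (measurable_pi_apply m)]
          rfl
        rw [e n, e 0]⟩
      memT := memLp_const _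
      memS := hSm
      posT := by rw [hT0]; norm_num
      stable := by rw [hT0, hS0]; norm_num }
  · intro n
    rw [Measure.real, ← ENNReal.ofReal_le_iff_le_toReal (measure_ne_top _ _), half]
    exact hprob n
  · intro n
    rw [half]
    rw [← hhalf n]
    exact markov μ _ _
      (measurableSet_eq_fun (measurable_pi_apply n) measurable_const).nullMeasurableSet (hset n)
  · intro Ω' _ μ' _ W hW
    refine ⟨by rw [hrhs, ENNReal.ofReal_lt_ofReal_iff (by norm_num)]; norm_num, ?_⟩
    rw [half]
    refine le_trans ?_ (markov μ' W (W ⁻¹' Set.Ici 1)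
      (hW.aemeasurable_limit.nullMeasurableSet_preimage measurableSet_Ici) fun ω hω => hω)
    have hcl := ProbabilityMeasure.limsup_measure_closed_le_of_tendsto hW.tendsto
      (isClosed_Ici (a := (1 : ℝ)))
    simp only [ProbabilityMeasure.coe_mk] at hcl
    rw [Measure.map_apply_of_aemeasurable hW.aemeasurable_limit measurableSet_Ici] at hcl
    refine le_trans ?_ hcl
    refine le_limsup_of_frequently_le ?_ ?_
    · refine Eventually.frequently ?_
      filter_upwards [eventually_ge_atTop 5] with n hn
      rw [Measure.map_apply_of_aemeasurable (hW.forall_aemeasurable n) measurableSet_Ici]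
      obtain ⟨m, rfl⟩ : ∃ m, n = m + 5 := ⟨n - 5, by omega⟩
      exact hprob m
    · isBoundedDefault

end Pool.Agent.Results.MP_1c00b2_pr.StationaryWait
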